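import Mathlib

set_option autoImplicit false

namespace Pool.Agent.W32.TC

open Real intervalIntegral

/-- the autocorrelation of `1 - c y ^ 2` on the unit window, times two -/
noncomputable def pp (c ξ : ℝ) : ℝ :=
  2 * ((1 - ξ) - c * ((1 - ξ) ^ 3 / 6 + (1 - ξ) * ξ ^ 2 / 2) +
    c ^ 2 * ((1 - ξ) ^ 5 / 80 - ξ ^ 2 * (1 - ξ) ^ 3 / 24 + ξ ^ 4 * (1 - ξ) / 16))

lemma hasDerivAt_sinx (x t : ℝ) : HasDerivAt (fun t : ℝ => sin (x * t)) (cos (x * t) * x) t := by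
  have h : HasDerivAt (fun t : ℝ => x * t) x t := by
    simpa using (hasDerivAt_id t).const_mul x
  exact h.sin

lemma hasDerivAt_cosx (x t : ℝ) : HasDerivAt (fun t : ℝ => cos (x * t)) (-sin (x * t) * x) t := by
  have h : HasDerivAt (fun t : ℝ => x * t) x t := by
    simpa using (hasDerivAt_id t).const_mul x
  exact h.cos

/-- expanded form -/
lemma pp_eq (c t : ℝ) : pp c t = 2 * (1 - t) - 2 * c * (1 / 6 - t / 2 + t ^ 2 - 2 * t ^ 3 / 3) +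
    2 * c ^ 2 * (1 / 80 - t / 16 + t ^ 2 / 12 - t ^ 5 / 30) := by
  unfold pp; ring

lemma hasDerivAt_poly (a0 a1 a2 a3 a4 a5 t : ℝ) :
    HasDerivAt (fun t : ℝ => a0 + a1 * t + a2 * t ^ 2 + a3 * t ^ 3 + a4 * t ^ 4 + a5 * t ^ 5)
      (a1 + 2 * a2 * t + 3 * a3 * t ^ 2 + 4 * a4 * t ^ 3 + 5 * a5 * t ^ 4) t := by
  have h1 : HasDerivAt (fun t : ℝ => a1 * t) (a1 * 1) t := (hasDerivAt_id t).const_mul a1
  have h2 : HasDerivAt (fun t : ℝ => a2 * t ^ 2) (a2 * (((2 : ℕ) : ℝ) * t ^ 1)) t := by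
    simpa using (hasDerivAt_pow 2 t).const_mul a2
  have h3 : HasDerivAt (fun t : ℝ => a3 * t ^ 3) (a3 * (((3 : ℕ) : ℝ) * t ^ 2)) t := by
    simpa using (hasDerivAt_pow 3 t).const_mul a3
  have h4 : HasDerivAt (fun t : ℝ => a4 * t ^ 4) (a4 * (((4 : ℕ) : ℝ) * t ^ 3)) t := by
    simpa using (hasDerivAt_pow 4 t).const_mul a4
  have h5 : HasDerivAt (fun t : ℝ => a5 * t ^ 5) (a5 * (((5 : ℕ) : ℝ) * t ^ 4)) t := by
    simpa using (hasDerivAt_pow 5 t).const_mul a5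
  have := ((((h1.const_add a0).add h2).add h3).add h4).add h5
  refine this.congr_deriv ?_
  push_cast
  ring

/-- the antiderivative of a quintic times cosine -/
lemma poly_cos (a0 a1 a2 a3 a4 a5 x : ℝ) (hx : x ≠ 0) (t : ℝ) :
    HasDerivAt (fun t : ℝ =>
      (a0 + a1 * t + a2 * t ^ 2 + a3 * t ^ 3 + a4 * t ^ 4 + a5 * t ^ 5) * sin (x * t) / x +
      (a1 + 2 * a2 * t + 3 * a3 * t ^ 2 + 4 * a4 * t ^ 3 + 5 * a5 * t ^ 4 + 0 * t ^ 5) *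
        cos (x * t) / x ^ 2 -
      (2 * a2 + 6 * a3 * t + 12 * a4 * t ^ 2 + 20 * a5 * t ^ 3 + 0 * t ^ 4 + 0 * t ^ 5) *
        sin (x * t) / x ^ 3 -
      (6 * a3 + 24 * a4 * t + 60 * a5 * t ^ 2 + 0 * t ^ 3 + 0 * t ^ 4 + 0 * t ^ 5) *
        cos (x * t) / x ^ 4 +
      (24 * a4 + 120 * a5 * t + 0 * t ^ 2 + 0 * t ^ 3 + 0 * t ^ 4 + 0 * t ^ 5) *
        sin (x * t) / x ^ 5 +
      (120 * a5 + 0 * t + 0 * t ^ 2 + 0 * t ^ 3 + 0 * t ^ 4 + 0 * t ^ 5) * cos (x * t) / x ^ 6)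
      ((a0 + a1 * t + a2 * t ^ 2 + a3 * t ^ 3 + a4 * t ^ 4 + a5 * t ^ 5) * cos (x * t)) t := by
  have hs := hasDerivAt_sinx x t
  have hc := hasDerivAt_cosx x t
  have h0 := ((hasDerivAt_poly a0 a1 a2 a3 a4 a5 t).mul hs).div_const x
  have h1 := ((hasDerivAt_poly a1 (2 * a2) (3 * a3) (4 * a4) (5 * a5) 0 t).mul hc).div_const (x ^ 2)
  have h2 := ((hasDerivAt_poly (2 * a2) (6 * a3) (12 * a4) (20 * a5) 0 0 t).mul hs).div_const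
    (x ^ 3)
  have h3 := ((hasDerivAt_poly (6 * a3) (24 * a4) (60 * a5) 0 0 0 t).mul hc).div_const (x ^ 4)
  have h4 := ((hasDerivAt_poly (24 * a4) (120 * a5) 0 0 0 0 t).mul hs).div_const (x ^ 5)
  have h5 := ((hasDerivAt_poly (120 * a5) 0 0 0 0 0 t).mul hc).div_const (x ^ 6)
  have := ((((h0.add h1).sub h2).sub h3).add h4).add h5
  refine this.congr_deriv ?_
  field_simp
  ring

lemma poly_cos_int (a0 a1 a2 a3 a4 a5 x : ℝ) (hx : x ≠ 0) (a b : ℝ) :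
    ∫ t in a..b, (a0 + a1 * t + a2 * t ^ 2 + a3 * t ^ 3 + a4 * t ^ 4 + a5 * t ^ 5) * cos (x * t) =
    ((a0 + a1 * b + a2 * b ^ 2 + a3 * b ^ 3 + a4 * b ^ 4 + a5 * b ^ 5) * sin (x * b) / x +
      (a1 + 2 * a2 * b + 3 * a3 * b ^ 2 + 4 * a4 * b ^ 3 + 5 * a5 * b ^ 4 + 0 * b ^ 5) *
        cos (x * b) / x ^ 2 -
      (2 * a2 + 6 * a3 * b + 12 * a4 * b ^ 2 + 20 * a5 * b ^ 3 + 0 * b ^ 4 + 0 * b ^ 5) *
        sin (x * b) / x ^ 3 -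
      (6 * a3 + 24 * a4 * b + 60 * a5 * b ^ 2 + 0 * b ^ 3 + 0 * b ^ 4 + 0 * b ^ 5) *
        cos (x * b) / x ^ 4 +
      (24 * a4 + 120 * a5 * b + 0 * b ^ 2 + 0 * b ^ 3 + 0 * b ^ 4 + 0 * b ^ 5) *
        sin (x * b) / x ^ 5 +
      (120 * a5 + 0 * b + 0 * b ^ 2 + 0 * b ^ 3 + 0 * b ^ 4 + 0 * b ^ 5) * cos (x * b) / x ^ 6) -
    ((a0 + a1 * a + a2 * a ^ 2 + a3 * a ^ 3 + a4 * a ^ 4 + a5 * a ^ 5) * sin (x * a) / x +
      (a1 + 2 * a2 * a + 3 * a3 * a ^ 2 + 4 * a4 * a ^ 3 + 5 * a5 * a ^ 4 + 0 * a ^ 5) *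
        cos (x * a) / x ^ 2 -
      (2 * a2 + 6 * a3 * a + 12 * a4 * a ^ 2 + 20 * a5 * a ^ 3 + 0 * a ^ 4 + 0 * a ^ 5) *
        sin (x * a) / x ^ 3 -
      (6 * a3 + 24 * a4 * a + 60 * a5 * a ^ 2 + 0 * a ^ 3 + 0 * a ^ 4 + 0 * a ^ 5) *
        cos (x * a) / x ^ 4 +
      (24 * a4 + 120 * a5 * a + 0 * a ^ 2 + 0 * a ^ 3 + 0 * a ^ 4 + 0 * a ^ 5) *
        sin (x * a) / x ^ 5 +
      (120 * a5 + 0 * a + 0 * a ^ 2 + 0 * a ^ 3 + 0 * a ^ 4 + 0 * a ^ 5) * cos (x * a) / x ^ 6) := by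
  refine integral_eq_sub_of_hasDerivAt (fun t _ => poly_cos a0 a1 a2 a3 a4 a5 x hx t) ?_
  apply Continuous.intervalIntegrable
  fun_prop

lemma poly_int (a0 a1 a2 a3 a4 a5 a b : ℝ) :
    ∫ t in a..b, (a0 + a1 * t + a2 * t ^ 2 + a3 * t ^ 3 + a4 * t ^ 4 + a5 * t ^ 5) =
    (a0 * b + a1 * b ^ 2 / 2 + a2 * b ^ 3 / 3 + a3 * b ^ 4 / 4 + a4 * b ^ 5 / 5 +
      a5 * b ^ 6 / 6) -
    (a0 * a + a1 * a ^ 2 / 2 + a2 * a ^ 3 / 3 + a3 * a ^ 4 / 4 + a4 * a ^ 5 / 5 +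
      a5 * a ^ 6 / 6) := by
  have key : ∀ t : ℝ, HasDerivAt (fun t : ℝ => a0 * t + a1 * t ^ 2 / 2 + a2 * t ^ 3 / 3 +
      a3 * t ^ 4 / 4 + a4 * t ^ 5 / 5 + a5 * t ^ 6 / 6)
      (a0 + a1 * t + a2 * t ^ 2 + a3 * t ^ 3 + a4 * t ^ 4 + a5 * t ^ 5) t := by
    intro t
    have h1 : HasDerivAt (fun t : ℝ => a0 * t) (a0 * 1) t := (hasDerivAt_id t).const_mul a0
    have h2 := ((hasDerivAt_pow 2 t).const_mul a1).div_const 2
    have h3 := ((hasDerivAt_pow 3 t).const_mul a2).div_const 3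
    have h4 := ((hasDerivAt_pow 4 t).const_mul a3).div_const 4
    have h5 := ((hasDerivAt_pow 5 t).const_mul a4).div_const 5
    have h6 := ((hasDerivAt_pow 6 t).const_mul a5).div_const 6
    have := ((((h1.add h2).add h3).add h4).add h5).add h6
    refine this.congr_deriv ?_
    push_cast
    ring
  refine integral_eq_sub_of_hasDerivAt (fun t _ => key t) ?_
  apply Continuous.intervalIntegrable
  fun_prop

theorem pos_sq (c x : ℝ) : ∫ ξ in (0 : ℝ)..1, pp c ξ * Real.cos (x * ξ) =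
    (∫ y in (-1 / 2 : ℝ)..(1 / 2), (1 - c * y ^ 2) * Real.cos (x * y)) ^ 2 := by
  have e1 : ∀ ξ : ℝ, pp c ξ * Real.cos (x * ξ) =
      ((2 - c / 3 + c ^ 2 / 40) + (-2 + c - c ^ 2 / 8) * ξ + (-2 * c + c ^ 2 / 6) * ξ ^ 2 +
        (4 * c / 3) * ξ ^ 3 + 0 * ξ ^ 4 + (-c ^ 2 / 15) * ξ ^ 5) * Real.cos (x * ξ) := by
    intro ξ
    rw [pp_eq]; ring
  have e2 : ∀ y : ℝ, (1 - c * y ^ 2) * Real.cos (x * y) =
      (1 + 0 * y + (-c) * y ^ 2 + 0 * y ^ 3 + 0 * y ^ 4 + 0 * y ^ 5) * Real.cos (x * y) := by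
    intro y; ring
  rw [integral_congr (g := fun ξ => ((2 - c / 3 + c ^ 2 / 40) + (-2 + c - c ^ 2 / 8) * ξ +
      (-2 * c + c ^ 2 / 6) * ξ ^ 2 +
        (4 * c / 3) * ξ ^ 3 + 0 * ξ ^ 4 + (-c ^ 2 / 15) * ξ ^ 5) * Real.cos (x * ξ))
      (fun ξ _ => e1 ξ),
    integral_congr (g := fun y => (1 + 0 * y + (-c) * y ^ 2 + 0 * y ^ 3 + 0 * y ^ 4 + 0 * y ^ 5) *
      Real.cos (x * y)) (fun y _ => e2 y)]
  rcases eq_or_ne x 0 with rfl | hx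
  · simp only [zero_mul, Real.cos_zero, mul_one]
    have := poly_int (2 - c / 3 + c ^ 2 / 40) (-2 + c - c ^ 2 / 8) (-2 * c + c ^ 2 / 6)
      (4 * c / 3) 0 (-c ^ 2 / 15) 0 1
    have h2 := poly_int 1 0 (-c) 0 0 0 (-1 / 2) (1 / 2)
    simp only [zero_mul] at this h2
    rw [this, h2]
    ring
  · rw [poly_cos_int _ _ _ _ _ _ x hx, poly_cos_int _ _ _ _ _ _ x hx]
    have s1 : sin (x * 1) = 2 * sin (x * (1 / 2)) * cos (x * (1 / 2)) := by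
      rw [← sin_two_mul]; ring_nf
    have c1 : cos (x * 1) = 1 - 2 * sin (x * (1 / 2)) ^ 2 := by
      have := cos_two_mul (x * (1 / 2))
      have h3 := sin_sq_add_cos_sq (x * (1 / 2))
      have e : x * 1 = 2 * (x * (1 / 2)) := by ring
      rw [e, this]; linarith
    have s2 : sin (x * (-1 / 2)) = - sin (x * (1 / 2)) := by
      rw [← sin_neg]; ring_nf
    have c2 : cos (x * (-1 / 2)) = cos (x * (1 / 2)) := by
      rw [← cos_neg]; ring_nf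
    have s3 : sin (x * 0) = 0 := by simp
    have c3 : cos (x * 0) = 1 := by simp
    rw [s1, c1, s2, c2, s3, c3]
    have h3 := sin_sq_add_cos_sq (x * (1 / 2))
    set s := sin (x * (1 / 2)) with hs
    set k := cos (x * (1 / 2)) with hk
    have hk2 : k ^ 2 = 1 - s ^ 2 := by linarith
    field_simp
    ring_nf
    rw [hk2]
    ring

theorem u_lower (c x : ℝ) (_hc0 : 0 ≤ c) (hc : c ≤ 4) :
    (1 - c / 12) - x ^ 2 / 2 * (1 / 12 - c / 80) ≤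
      ∫ y in (-1 / 2 : ℝ)..(1 / 2), (1 - c * y ^ 2) * Real.cos (x * y) := by
  have h2 := poly_int 1 0 (-c - x ^ 2 / 2) 0 (c * x ^ 2 / 2) 0 (-1 / 2) (1 / 2)
  have h3 : (1 - c / 12) - x ^ 2 / 2 * (1 / 12 - c / 80) =
      ∫ t in (-1 / 2 : ℝ)..(1 / 2), (1 + 0 * t + (-c - x ^ 2 / 2) * t ^ 2 + 0 * t ^ 3 +
        (c * x ^ 2 / 2) * t ^ 4 + 0 * t ^ 5) := by
    rw [h2]; ring
  rw [h3]
  apply integral_mono_on (by norm_num)
  · apply Continuous.intervalIntegrable; fun_prop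
  · apply Continuous.intervalIntegrable; fun_prop
  · intro y hy
    have hy2 : y ^ 2 ≤ 1 / 4 := by
      have := hy.1; have := hy.2; nlinarith
    have hu : 0 ≤ 1 - c * y ^ 2 := by nlinarith [sq_nonneg y]
    have hcos := Real.one_sub_sq_div_two_le_cos (x := x * y)
    have := mul_le_mul_of_nonneg_left hcos hu
    nlinarith

end Pool.Agent.W32.TC
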